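import Mathlib

/-!
# A non-abelian variety of groups in which every group has an integral

For an odd prime `p` every group `G` of exponent dividing `p` and nilpotency class at most `2` has
an automorphism `α` of order two inverting `G` modulo `G'`; then `G` is the derived subgroup of
`G ⋊ ⟨α⟩`.
-/

set_option autoImplicit false

namespace Pool.Agent.N57.Integrals

open scoped commutatorElement

universe u

/-! ### groups of class two and exponent `p` -/

section cls

variable {G : Type u} [Group G]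

/-- class at most two -/
def Two (G : Type u) [Group G] : Prop := ∀ x y z : G, ⁅⁅x, y⁆, z⁆ = 1

theorem Two.central (h : Two G) (x y z : G) : ⁅x, y⁆ * z = z * ⁅x, y⁆ := by
  have := h x y z
  rwa [commutatorElement_eq_one_iff_mul_comm] at this

theorem Two.mul_left (h : Two G) (x y z : G) : ⁅x * y, z⁆ = ⁅x, z⁆ * ⁅y, z⁆ := by
  have h1 : ⁅x * y, z⁆ = x * ⁅y, z⁆ * x⁻¹ * ⁅x, z⁆ := by
    simp only [commutatorElement_def]; group
  rw [h1, ← h.central y z x, mul_assoc ⁅y, z⁆, mul_inv_cancel, mul_one, h.central]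

theorem Two.mul_right (h : Two G) (x y z : G) : ⁅x, y * z⁆ = ⁅x, y⁆ * ⁅x, z⁆ := by
  have h1 : ⁅x, y * z⁆ = ⁅x, y⁆ * (y * ⁅x, z⁆ * y⁻¹) := by
    simp only [commutatorElement_def]; group
  rw [h1, ← h.central x z y, mul_assoc ⁅x, z⁆, mul_inv_cancel, mul_one]

/-- the commutator with fixed second entry -/
def Two.hl (h : Two G) (z : G) : G →* G where
  toFun x := ⁅x, z⁆
  map_one' := by simp
  map_mul' x y := h.mul_left x y z

def Two.hr (h : Two G) (x : G) : G →* G where
  toFun z := ⁅x, z⁆
  map_one' := by simp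
  map_mul' y z := h.mul_right x y z

theorem Two.pow_left (h : Two G) (x z : G) (n : ℕ) : ⁅x ^ n, z⁆ = ⁅x, z⁆ ^ n :=
  map_pow (h.hl z) x n

theorem Two.inv_left (h : Two G) (x z : G) : ⁅x⁻¹, z⁆ = ⁅x, z⁆⁻¹ := map_inv (h.hl z) x

theorem Two.inv_right (h : Two G) (x z : G) : ⁅x, z⁻¹⁆ = ⁅x, z⁆⁻¹ := map_inv (h.hr x) z

theorem Two.mem_center (h : Two G) (c : G) (hc : c ∈ commutator G) (z : G) : c * z = z * c := by
  have : commutator G ≤ Subgroup.center G := by
    rw [commutator_def, Subgroup.commutator_le]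
    intro x _ y _
    rw [Subgroup.mem_center_iff]
    intro z
    exact (h.central x y z).symm
  exact ((Subgroup.mem_center_iff.1 (this hc)) z).symm

/-- the correcting factor: `⁅y, x⁆ ^ k` -/
def cc (k : ℕ) (x y : G) : G := ⁅y, x⁆ ^ k

theorem cc_mem (k : ℕ) (x y : G) : cc k x y ∈ commutator G :=
  Subgroup.pow_mem _ (Subgroup.commutator_mem_commutator (Subgroup.mem_top _)
    (Subgroup.mem_top _)) _

theorem Two.cc_comm (h : Two G) (k : ℕ) (x y z : G) : cc k x y * z = z * cc k x y :=
  h.mem_center _ (cc_mem k x y) z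

theorem Two.cc_mul_left (h : Two G) (k : ℕ) (x y z : G) : cc k (x * y) z = cc k x z * cc k y z := by
  unfold cc
  rw [h.mul_right]
  exact Commute.mul_pow (h.central z x ⁅z, y⁆) k

theorem Two.cc_mul_right (h : Two G) (k : ℕ) (x y z : G) :
    cc k x (y * z) = cc k x y * cc k x z := by
  unfold cc
  rw [h.mul_left]
  exact Commute.mul_pow (h.central y x ⁅z, x⁆) k

theorem Two.cc_central_left (h : Two G) (k : ℕ) (c : G) (hc : c ∈ commutator G) (z : G) :
    cc k c z = 1 := by
  unfold cc
  rw [commutatorElement_eq_one_iff_mul_comm.2 (h.mem_center c hc z).symm, one_pow]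

theorem Two.cc_central_right (h : Two G) (k : ℕ) (c : G) (hc : c ∈ commutator G) (z : G) :
    cc k z c = 1 := by
  unfold cc
  rw [commutatorElement_eq_one_iff_mul_comm.2 (h.mem_center c hc z), one_pow]

theorem Two.cc_inv_inv (h : Two G) (k : ℕ) (x y : G) : cc k x⁻¹ y⁻¹ = cc k x y := by
  unfold cc
  rw [h.inv_left, h.inv_right, inv_inv]

/-- the sum -/
def ad (k : ℕ) (x y : G) : G := x * y * cc k x y

theorem Two.ad_assoc (h : Two G) (k : ℕ) (x y z : G) :
    ad k (ad k x y) z = ad k x (ad k y z) := by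
  unfold ad
  rw [h.cc_mul_left, h.cc_mul_left, h.cc_central_left k _ (cc_mem k x y), h.cc_mul_right,
    h.cc_mul_right, h.cc_central_right k _ (cc_mem k y z)]
  have e1 := h.cc_comm k x y z
  have e2 : cc k x z * cc k y z = cc k y z * cc k x z := h.cc_comm k x z _
  have e3 : cc k x y * cc k y z = cc k y z * cc k x y := h.cc_comm k x y _
  calc x * y * cc k x y * z * (cc k x z * cc k y z * 1)
      = x * y * (cc k x y * z) * (cc k x z * cc k y z) := by group
    _ = x * y * z * (cc k x y * (cc k x z * cc k y z)) := by rw [e1]; group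
    _ = x * y * z * (cc k x y * cc k y z * cc k x z) := by rw [e2]; group
    _ = x * (y * z * cc k y z) * (cc k x y * cc k x z * 1) := by rw [e3]; group

theorem Two.ad_comm (h : Two G) {k p : ℕ} (hk : 2 * k = p + 1) (hp : ∀ x : G, x ^ p = 1) (x y : G) :
    ad k x y = ad k y x := by
  unfold ad cc
  have e1 : x * y = y * x * ⁅x, y⁆ := by
    have : x * y = ⁅x, y⁆ * (y * x) := by simp only [commutatorElement_def]; group
    rw [this, h.central]
  have e2 : ⁅y, x⁆ = ⁅x, y⁆⁻¹ := (commutatorElement_inv x y).symm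
  have e3 : ⁅x, y⁆ ^ k * ⁅x, y⁆ ^ k = ⁅x, y⁆ := by
    rw [← pow_add, ← two_mul, hk, pow_add, hp, one_mul, pow_one]
  rw [e1, e2, mul_assoc]
  congr 1
  rw [inv_pow]
  nth_rewrite 1 [← e3]
  rw [mul_inv_cancel_right]

theorem cc_self (k : ℕ) (x : G) : cc k x x = 1 := by simp [cc]

theorem cc_one_left (k : ℕ) (x : G) : cc k 1 x = 1 := by simp [cc]

theorem Two.cc_inv_self (h : Two G) (k : ℕ) (x : G) : cc k x⁻¹ x = 1 := by
  unfold cc
  rw [h.inv_right, commutatorElement_self, inv_one, one_pow]

end cls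

/-! ### the Baer sum -/

/-- copy of `G` with addition `x * y * ⁅y, x⁆ ^ k` -/
@[ext] structure Br (G : Type u) : Type u where
  /-- the underlying element -/
  v : G

section baer

variable {G : Type u} [Group G]

/-- the additive group -/
@[reducible] def baer (h : Two G) {k p : ℕ} (hk : 2 * k = p + 1) (hp : ∀ x : G, x ^ p = 1) :
    AddCommGroup (Br G) where
  add x y := ⟨ad k x.v y.v⟩
  zero := ⟨1⟩
  neg x := ⟨x.v⁻¹⟩
  add_assoc x y z := Br.ext (h.ad_assoc k x.v y.v z.v)
  zero_add x := Br.ext (by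
    show ad k 1 x.v = x.v
    unfold ad
    rw [cc_one_left, one_mul, mul_one])
  add_zero x := Br.ext (by
    show ad k x.v 1 = x.v
    rw [h.ad_comm hk hp]
    unfold ad
    rw [cc_one_left, one_mul, mul_one])
  neg_add_cancel x := Br.ext (by
    show ad k x.v⁻¹ x.v = 1
    unfold ad
    rw [h.cc_inv_self, inv_mul_cancel, one_mul])
  add_comm x y := Br.ext (h.ad_comm hk hp x.v y.v)
  nsmul n x := ⟨x.v ^ n⟩
  nsmul_zero x := Br.ext (pow_zero x.v)
  nsmul_succ n x := Br.ext (by
    show x.v ^ (n + 1) = ad k (x.v ^ n) x.v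
    unfold ad cc
    rw [commutatorElement_eq_one_iff_mul_comm.2 ((Commute.refl x.v).pow_right n).eq, one_pow,
      mul_one, pow_succ])
  zsmul n x := ⟨x.v ^ n⟩
  zsmul_zero' x := Br.ext (zpow_zero x.v)
  zsmul_succ' n x := Br.ext (by
    show x.v ^ ((n.succ : ℕ) : ℤ) = ad k (x.v ^ (n : ℤ)) x.v
    unfold ad cc
    rw [zpow_natCast, zpow_natCast,
      commutatorElement_eq_one_iff_mul_comm.2 ((Commute.refl x.v).pow_right n).eq, one_pow,
      mul_one, pow_succ])
  zsmul_neg' n x := Br.ext (by
    show x.v ^ (Int.negSucc n) = (x.v ^ ((n.succ : ℕ) : ℤ))⁻¹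
    rw [zpow_negSucc, zpow_natCast])

/-- the automorphism inverting `G` modulo `G'` -/
theorem exists_aut (h : Two G) {p : ℕ} (hpp : p.Prime) (h2 : p ≠ 2) (hp : ∀ x : G, x ^ p = 1) :
    ∃ α : MulAut G, α * α = 1 ∧ (∀ c ∈ commutator G, α c = c) ∧
      ∀ g : G, ∃ u : G, ∃ c ∈ commutator G, g = u * c ∧ α u = u⁻¹ := by
  have hodd : Odd p := hpp.odd_of_ne_two h2
  obtain ⟨m, hm⟩ := hodd
  obtain ⟨k, hk⟩ : ∃ k, 2 * k = p + 1 := ⟨m + 1, by omega⟩
  let _ : AddCommGroup (Br G) := baer h hk hp
  have _ : Fact p.Prime := ⟨hpp⟩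
  let _ : Module (ZMod p) (Br G) :=
    AddCommGroup.zmodModule (n := p) (G := Br G) (fun x => Br.ext (hp x.v))
  have hadd : ∀ x y : Br G, (x + y).v = ad k x.v y.v := fun _ _ => rfl
  have hneg : ∀ x : Br G, (-x).v = x.v⁻¹ := fun _ => rfl
  -- the derived subgroup as a subspace
  let W₀ : AddSubgroup (Br G) :=
    { carrier := {x | x.v ∈ commutator G}
      add_mem' := fun {x y} hx hy =>
        Subgroup.mul_mem _ (Subgroup.mul_mem _ hx hy) (cc_mem k x.v y.v)
      zero_mem' := (commutator G).one_mem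
      neg_mem' := fun {x} hx => (commutator G).inv_mem (x := x.v) hx }
  let W : Submodule (ZMod p) (Br G) := AddSubgroup.toZModSubmodule p W₀
  have hW : ∀ x : Br G, x ∈ W ↔ x.v ∈ commutator G := fun x => Iff.rfl
  obtain ⟨U, hU⟩ := Submodule.exists_isCompl W
  -- the involution `x ↦ w - u`, where `x = w + u`
  let A : Br G → Br G := fun x => W.projection U hU x - U.projection W hU.symm x
  have hdec : ∀ x : Br G, W.projection U hU x + U.projection W hU.symm x = x :=
    fun x => Submodule.projection_add_projection_eq_self hU x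
  have hAadd : ∀ x y, A (x + y) = A x + A y := by
    intro x y
    simp only [A, map_add]
    abel
  have hAW : ∀ x ∈ W, A x = x := by
    intro x hx
    simp only [A]
    rw [Submodule.projection_apply_of_mem_left hU hx,
      (Submodule.projection_apply_eq_zero_iff hU.symm).2 hx, sub_zero]
  have hAU : ∀ x ∈ U, A x = -x := by
    intro x hx
    simp only [A]
    rw [Submodule.projection_apply_of_mem_left hU.symm hx,
      (Submodule.projection_apply_eq_zero_iff hU).2 hx, zero_sub]
  have hAA : ∀ x, A (A x) = x := by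
    intro x
    have e1 : A x = W.projection U hU x + -(U.projection W hU.symm x) := by
      simp only [A]; abel
    rw [e1, hAadd, hAW _ (Submodule.projection_apply_mem hU x),
      hAU _ (U.neg_mem (Submodule.projection_apply_mem hU.symm x)), neg_neg, hdec]
  -- `A x` is the product of a central element and of the inverse of `x`
  have hsub : ∀ x : Br G, ∃ c ∈ commutator G, (A x).v = x.v⁻¹ * c := by
    intro x
    have e1 : A x = -x + (W.projection U hU x + W.projection U hU x) := by
      have := hdec x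
      simp only [A]
      nth_rewrite 3 [← this]
      abel
    have hw : (W.projection U hU x + W.projection U hU x).v ∈ commutator G :=
      W.add_mem (Submodule.projection_apply_mem hU x) (Submodule.projection_apply_mem hU x)
    refine ⟨(W.projection U hU x + W.projection U hU x).v, hw, ?_⟩
    rw [e1, hadd, hneg]
    unfold ad
    rw [h.cc_central_right k _ hw, mul_one]
  have hmul : ∀ x y : G, (A ⟨x * y⟩).v = (A ⟨x⟩).v * (A ⟨y⟩).v := by
    intro x y
    have hc : (cc k x y)⁻¹ ∈ commutator G := Subgroup.inv_mem _ (cc_mem k x y)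
    have e1 : (⟨x * y⟩ : Br G) = ⟨x⟩ + ⟨y⟩ + ⟨(cc k x y)⁻¹⟩ := by
      apply Br.ext
      rw [hadd, hadd]
      unfold ad
      rw [h.cc_central_right k _ hc, mul_one, mul_inv_cancel_right]
    rw [e1, hAadd, hAadd, hAW ⟨(cc k x y)⁻¹⟩ hc, hadd, hadd]
    obtain ⟨c, hc1, hc2⟩ := hsub ⟨x⟩
    obtain ⟨d, hd1, hd2⟩ := hsub ⟨y⟩
    have e2 : cc k (A ⟨x⟩).v (A ⟨y⟩).v = cc k x y := by
      rw [hc2, hd2, h.cc_mul_left, h.cc_mul_right, h.cc_central_right k d hd1, mul_one,
        h.cc_central_left k c hc1, mul_one, h.cc_inv_inv]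
    unfold ad
    rw [e2, h.cc_central_right k _ hc, mul_one, mul_inv_cancel_right]
  let α : MulAut G :=
    { toFun := fun x => (A ⟨x⟩).v
      invFun := fun x => (A ⟨x⟩).v
      left_inv := fun x => congrArg Br.v (hAA ⟨x⟩)
      right_inv := fun x => congrArg Br.v (hAA ⟨x⟩)
      map_mul' := hmul }
  have hα : ∀ x : G, α x = (A ⟨x⟩).v := fun _ => rfl
  refine ⟨α, ?_, ?_, ?_⟩
  · ext x
    show (A (A ⟨x⟩)).v = x
    rw [hAA]
  · intro c hc
    rw [hα, hAW ⟨c⟩ hc]
  · intro g
    refine ⟨(U.projection W hU.symm ⟨g⟩).v, (W.projection U hU ⟨g⟩).v,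
      Submodule.projection_apply_mem hU ⟨g⟩, ?_, ?_⟩
    · have e1 := congrArg Br.v (hdec ⟨g⟩)
      rw [add_comm, hadd] at e1
      have hw : (W.projection U hU ⟨g⟩).v ∈ commutator G := Submodule.projection_apply_mem hU ⟨g⟩
      unfold ad at e1
      rw [h.cc_central_right k _ hw, mul_one] at e1
      exact e1.symm
    · rw [hα]
      exact congrArg Br.v (hAU _ (Submodule.projection_apply_mem hU.symm ⟨g⟩))

end baer

/-! ### the integral -/

section integral

variable {G : Type u} [Group G]

/-- the action of the group of order two through an involution -/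
def act (α : MulAut G) (hα : α * α = 1) : Multiplicative (ZMod 2) →* MulAut G where
  toFun s := if s = 1 then 1 else α
  map_one' := if_pos rfl
  map_mul' := by
    intro s t
    have h : ∀ s : Multiplicative (ZMod 2), s = 1 ∨ s = Multiplicative.ofAdd 1 := by decide
    have h1 : (Multiplicative.ofAdd 1 : Multiplicative (ZMod 2)) ≠ 1 := by decide
    have h2 : (Multiplicative.ofAdd 1 : Multiplicative (ZMod 2)) * Multiplicative.ofAdd 1 = 1 := by
      decide
    rcases h s with rfl | rfl <;> rcases h t with rfl | rfl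
    · simp
    · simp
    · simp
    · rw [h2, if_pos rfl, if_neg h1, hα]

theorem act_one (α : MulAut G) (hα : α * α = 1) :
    (act α hα) (Multiplicative.ofAdd 1) = α := by
  have h1 : (Multiplicative.ofAdd 1 : Multiplicative (ZMod 2)) ≠ 1 := by decide
  show (if (Multiplicative.ofAdd 1 : Multiplicative (ZMod 2)) = 1 then (1 : MulAut G) else α) = α
  rw [if_neg h1]

theorem integral (h : Two G) {p : ℕ} (hpp : p.Prime) (h2 : p ≠ 2) (hp : ∀ x : G, x ^ p = 1) :
    ∃ (H : Type u) (_ : Group H), (commutator H).index = 2 ∧ Nonempty (commutator H ≃* G) := by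
  obtain ⟨α, hα, hc, hg⟩ := exists_aut h hpp h2 hp
  obtain ⟨m, hm⟩ := hpp.odd_of_ne_two h2
  have key : commutator (G ⋊[act α hα] Multiplicative (ZMod 2)) =
      (SemidirectProduct.inl : G →* G ⋊[act α hα] Multiplicative (ZMod 2)).range := by
    apply le_antisymm
    · rw [SemidirectProduct.range_inl_eq_ker_rightHom, commutator_def, Subgroup.commutator_le]
      intro x _ y _
      rw [MonoidHom.mem_ker, map_commutatorElement, commutatorElement_eq_one_iff_mul_comm]
      exact mul_comm _ _
    · let K : Subgroup G := (commutator (G ⋊[act α hα] Multiplicative (ZMod 2))).comap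
        (SemidirectProduct.inl : G →* G ⋊[act α hα] Multiplicative (ZMod 2))
      have hK : ∀ x : G, x ∈ K ↔ (SemidirectProduct.inl x : G ⋊[act α hα] Multiplicative (ZMod 2)) ∈
        commutator (G ⋊[act α hα] Multiplicative (ZMod 2)) := fun x => Iff.rfl
      have hc1 : commutator G ≤ K := by
        rw [commutator_def, Subgroup.commutator_le]
        intro x _ y _
        rw [hK, map_commutatorElement]
        exact Subgroup.commutator_mem_commutator (Subgroup.mem_top _) (Subgroup.mem_top _)
      have hu : ∀ u : G, α u = u⁻¹ → u ∈ K := by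
        intro u hu
        have h1 : u * u ∈ K := by
          rw [hK]
          have e1 : (SemidirectProduct.inl (u * u) : G ⋊[act α hα] Multiplicative (ZMod 2)) =
              ⁅(SemidirectProduct.inl u : G ⋊[act α hα] Multiplicative (ZMod 2)),
                SemidirectProduct.inr (Multiplicative.ofAdd 1)⁆ := by
            have e2 : (act α hα) (Multiplicative.ofAdd 1) = α := act_one α hα
            have e3 := SemidirectProduct.inl_aut (φ := act α hα) (Multiplicative.ofAdd 1) u⁻¹
            rw [e2, map_inv, hu, inv_inv, map_inv, map_inv] at e3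
            rw [commutatorElement_def, map_mul]
            nth_rewrite 2 [e3]
            group
          rw [e1]
          exact Subgroup.commutator_mem_commutator (Subgroup.mem_top _) (Subgroup.mem_top _)
        have e : (u * u) ^ (m + 1) = u := by
          rw [← pow_two, ← pow_mul, show 2 * (m + 1) = p + 1 by omega, pow_succ, hp, one_mul]
        rw [← e]
        exact Subgroup.pow_mem _ h1 _
      rintro _ ⟨g, rfl⟩
      obtain ⟨u, c, hcc, rfl, hu'⟩ := hg g
      exact K.mul_mem (hu u hu') (hc1 hcc)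
  refine ⟨G ⋊[act α hα] Multiplicative (ZMod 2), inferInstance, ?_, ?_⟩
  · rw [key, SemidirectProduct.range_inl_eq_ker_rightHom, Subgroup.index_ker,
      MonoidHom.range_eq_top.2 SemidirectProduct.rightHom_surjective, Nat.card_eq_of_bijective
        (fun x : (⊤ : Subgroup (Multiplicative (ZMod 2))) => (x : Multiplicative (ZMod 2)))
        ⟨Subtype.val_injective, fun x => ⟨⟨x, Subgroup.mem_top x⟩, rfl⟩⟩]
    simp
  · rw [key]
    exact ⟨(MonoidHom.ofInjective SemidirectProduct.inl_injective).symm⟩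

end integral

/-! ### the group of unitriangular matrices -/

/-- the group of upper unitriangular matrices of degree three -/
@[ext] structure Heis (p : ℕ) : Type u where
  /-- entry (1,2) -/
  a : ULift.{u} (ZMod p)
  /-- entry (2,3) -/
  b : ULift.{u} (ZMod p)
  /-- entry (1,3) -/
  c : ULift.{u} (ZMod p)

namespace Heis

variable {p : ℕ}

instance : Mul (Heis.{u} p) := ⟨fun x y => ⟨x.a + y.a, x.b + y.b, x.c + y.c + x.a * y.b⟩⟩
instance : One (Heis.{u} p) := ⟨⟨0, 0, 0⟩⟩
instance : Inv (Heis.{u} p) := ⟨fun x => ⟨-x.a, -x.b, -x.c + x.a * x.b⟩⟩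

theorem mul_a (x y : Heis.{u} p) : (x * y).a = x.a + y.a := rfl
theorem mul_b (x y : Heis.{u} p) : (x * y).b = x.b + y.b := rfl
theorem mul_c (x y : Heis.{u} p) : (x * y).c = x.c + y.c + x.a * y.b := rfl
theorem one_a : (1 : Heis.{u} p).a = 0 := rfl
theorem one_b : (1 : Heis.{u} p).b = 0 := rfl
theorem one_c : (1 : Heis.{u} p).c = 0 := rfl
theorem inv_a (x : Heis.{u} p) : (x⁻¹).a = -x.a := rfl
theorem inv_b (x : Heis.{u} p) : (x⁻¹).b = -x.b := rfl
theorem inv_c (x : Heis.{u} p) : (x⁻¹).c = -x.c + x.a * x.b := rfl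

instance : Group (Heis.{u} p) := Group.ofLeftAxioms
  (by
    intro x y z
    ext1
    · simp only [mul_a]; ring
    · simp only [mul_b]; ring
    · simp only [mul_a, mul_b, mul_c]; ring)
  (by
    intro x
    ext1
    · simp only [mul_a, one_a]; ring
    · simp only [mul_b, one_b]; ring
    · simp only [mul_c, one_a, one_c]; ring)
  (by
    intro x
    ext1
    · simp only [mul_a, one_a, inv_a]; ring
    · simp only [mul_b, one_b, inv_b]; ring
    · simp only [mul_c, one_c, inv_a, inv_c]; ring)

theorem pow_eq (x : Heis.{u} p) (n : ℕ) :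
    x ^ n = ⟨n * x.a, n * x.b, n * x.c + (n.choose 2 : ℕ) * (x.a * x.b)⟩ := by
  induction n with
  | zero => ext1 <;> simp [one_a, one_b, one_c]
  | succ n ih =>
    rw [pow_succ, ih]
    have e : (n + 1).choose 2 = n + n.choose 2 := by
      rw [Nat.choose_succ_succ' n 1, Nat.choose_one_right]
    ext1
    · simp only [mul_a]; push_cast; ring
    · simp only [mul_b]; push_cast; ring
    · simp only [mul_c, e]; push_cast; ring

theorem cast_zero {n : ℕ} (h : p ∣ n) : (n : ULift.{u} (ZMod p)) = 0 := by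
  apply ULift.ext
  show ((n : ℕ) : ZMod p) = 0
  exact (ZMod.natCast_eq_zero_iff n p).2 h

theorem pow_p (hp : p.Prime) (h2 : p ≠ 2) (x : Heis.{u} p) : x ^ p = 1 := by
  rw [pow_eq]
  have hd : p ∣ p.choose 2 := hp.dvd_choose_self (by norm_num)
    (lt_of_le_of_ne hp.two_le (Ne.symm h2))
  rw [cast_zero dvd_rfl, cast_zero hd]
  ext1 <;> simp [one_a, one_b, one_c]

theorem two : Two (Heis.{u} p) := by
  intro x y z
  ext1
  · simp only [commutatorElement_def, mul_a, inv_a, one_a]; ring
  · simp only [commutatorElement_def, mul_b, inv_b, one_b]; ring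
  · simp only [commutatorElement_def, mul_a, mul_b, mul_c, inv_a, inv_b, inv_c, one_c]; ring

theorem not_comm (hp : p.Prime) : ∃ x y : Heis.{u} p, x * y ≠ y * x := by
  refine ⟨⟨1, 0, 0⟩, ⟨0, 1, 0⟩, fun h => ?_⟩
  have h1 := congrArg (fun z => z.c.down) h
  simp only [mul_c] at h1
  have := Fact.mk hp
  simp at h1

end Heis

end Pool.Agent.N57.Integrals
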